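import Mathlib
import Pool.Agent.H667R3.W8
import Pool.Agent.TH494.Ell.Add2

/-!
# Additivity of the form of the third kind (core computation)
-/

set_option autoImplicit false

open Filter
open scoped Topology PeriodPair

noncomputable section

namespace Pool.Agent.K1H8.NS

open H667R3 Pool.Agent.W245.EB Pool.Agent.TH813.Ell

/-- the algebraic identity behind the additivity -/
theorem alg_core {F F1 F2 G dF dF1 dF2 dG x y X x' y' X' A B g θ U0 U1 U2 : ℂ}
    (hF : F ≠ 0) (hF1 : F1 ≠ 0) (hF2 : F2 ≠ 0) (hG : G ≠ 0) (hxy : x - y ≠ 0) (hXy : X - y ≠ 0)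
    (hXx : X - x ≠ 0) (hx' : x' ≠ 0)
    (e1 : F1 * F2 * (x - y) = F ^ 2 * (X - y))
    (e2 : G * x' = F ^ 2 * (X - x))
    (d1 : (dF1 * F2 + F1 * dF2) * (x - y) + F1 * F2 * (A * x' - B * y')
      = 2 * F * dF * (X - y) + F ^ 2 * (A * X' - B * y'))
    (d2 : dG * x' + G * (A * g) = 2 * F * dF * (X - x) + F ^ 2 * (A * X' - A * x'))
    (u0 : U0 = θ + (X' - x') / (2 * (X - x)) - g / (2 * x'))
    (u1 : U1 = θ + (X' - y') / (2 * (X - y)) - (x' - y') / (2 * (x - y)))
    (u2 : U2 = θ + (X' + y') / (2 * (X - y)) - (x' + y') / (2 * (x - y))) :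
    dG / G - U0 * (2 * A) = (dF1 / F1 - U1 * (A + B)) + (dF2 / F2 - U2 * (A - B)) := by
  have hF2' : F ^ 2 ≠ 0 := pow_ne_zero 2 hF
  -- logarithmic derivatives
  have s1 : dF1 / F1 + dF2 / F2 + (A * x' - B * y') / (x - y)
      = 2 * (dF / F) + (A * X' - B * y') / (X - y) := by
    have h1 : dF1 / F1 + dF2 / F2 + (A * x' - B * y') / (x - y)
        = ((dF1 * F2 + F1 * dF2) * (x - y) + F1 * F2 * (A * x' - B * y'))
          / (F1 * F2 * (x - y)) := by
      field_simp
    have h2 : 2 * (dF / F) + (A * X' - B * y') / (X - y)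
        = (2 * F * dF * (X - y) + F ^ 2 * (A * X' - B * y')) / (F ^ 2 * (X - y)) := by
      field_simp
    rw [h1, h2, d1, e1]
  have s2 : dG / G + A * g / x' = 2 * (dF / F) + (A * X' - A * x') / (X - x) := by
    have h1 : dG / G + A * g / x' = (dG * x' + G * (A * g)) / (G * x') := by
      field_simp
    have h2 : 2 * (dF / F) + (A * X' - A * x') / (X - x)
        = (2 * F * dF * (X - x) + F ^ 2 * (A * X' - A * x')) / (F ^ 2 * (X - x)) := by
      field_simp
    rw [h1, h2, d2, e2]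
  have t1 : dF1 / F1 + dF2 / F2
      = 2 * (dF / F) + (A * X' - B * y') / (X - y) - (A * x' - B * y') / (x - y) := by
    linear_combination s1
  have t2 : dG / G = 2 * (dF / F) + (A * X' - A * x') / (X - x) - A * g / x' := by
    linear_combination s2
  have l : dG / G - U0 * (2 * A) = 2 * (dF / F) - 2 * A * θ := by
    rw [t2, u0]
    field_simp
    ring
  have r : (dF1 / F1 - U1 * (A + B)) + (dF2 / F2 - U2 * (A - B)) = 2 * (dF / F) - 2 * A * θ := by
    have : (dF1 / F1 - U1 * (A + B)) + (dF2 / F2 - U2 * (A - B))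
        = (dF1 / F1 + dF2 / F2) - U1 * (A + B) - U2 * (A - B) := by ring
    rw [this, t1, u1, u2]
    field_simp
    ring
  rw [l, r]

variable (L : PeriodPair) (D : Derivation ℚ ℂ ℂ)

theorem zeta_sub {a b : ℂ} (ha : a ∉ L.lattice) (hb : b ∉ L.lattice) (h1 : a + b ∉ L.lattice)
    (h2 : a - b ∉ L.lattice) :
    zeta L (a - b) = zeta L a - zeta L b
      + (℘'[L] a + ℘'[L] b) / (2 * (℘[L] a - ℘[L] b)) := by
  have h3 : ℘[L] a - ℘[L] b ≠ 0 := by
    rw [sub_ne_zero, Ne, wp_eq_iff L ha hb]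
    tauto
  have e1 := zeta_aux L ha hb h1 h2
  have e2 := zeta_add L ha hb h1 h2
  rw [e2] at e1
  have h4 : 2 * (℘[L] a - ℘[L] b) ≠ 0 := mul_ne_zero two_ne_zero h3
  apply mul_right_cancel₀ h3
  have e3 : (zeta L a - zeta L b + (℘'[L] a + ℘'[L] b) / (2 * (℘[L] a - ℘[L] b)))
      * (℘[L] a - ℘[L] b) = (zeta L a - zeta L b) * (℘[L] a - ℘[L] b)
        + (℘'[L] a + ℘'[L] b) / 2 := by
    field_simp
  have e4 : (zeta L a + zeta L b + (℘'[L] a - ℘'[L] b) / (2 * (℘[L] a - ℘[L] b))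
      + zeta L (a - b)) * (℘[L] a - ℘[L] b) = (zeta L a + zeta L b + zeta L (a - b))
        * (℘[L] a - ℘[L] b) + (℘'[L] a - ℘'[L] b) / 2 := by
    field_simp
    ring
  rw [e4] at e1
  rw [e3]
  linear_combination -e1

theorem core (h2 : D L.g₂ = 0) (h3 : D L.g₃ = 0) {q : ℂ} (hq : q ∉ L.lattice)
    (hqD : om L D q = 0) {a b : ℂ} (ha2 : 2 * a ∉ L.lattice) (hb : b ∉ L.lattice)
    (haq2 : 2 * (a + q) ∉ L.lattice) (h1 : a + b ∉ L.lattice) (h1' : a - b ∉ L.lattice)
    (h4 : a + q + b ∉ L.lattice) (h4' : a + q - b ∉ L.lattice) (h5 : 2 * a + q ∉ L.lattice) :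
    D (serreF L q (2 * a)) / serreF L q (2 * a)
        - (zeta L (2 * a + q) - zeta L (2 * a) - zeta L q) * om L D (2 * a)
      = (D (serreF L q (a + b)) / serreF L q (a + b)
          - (zeta L (a + b + q) - zeta L (a + b) - zeta L q) * om L D (a + b))
        + (D (serreF L q (a - b)) / serreF L q (a - b)
          - (zeta L (a - b + q) - zeta L (a - b) - zeta L q) * om L D (a - b)) := by
  have ha := two_mul_notMem_of L ha2
  have haq := two_mul_notMem_of L haq2
  have hx' := wp'_ne_zero L ha2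
  have hxy : ℘[L] a - ℘[L] b ≠ 0 := by
    rw [sub_ne_zero, Ne, wp_eq_iff L ha hb]
    tauto
  have hXy : ℘[L] (a + q) - ℘[L] b ≠ 0 := by
    rw [sub_ne_zero, Ne, wp_eq_iff L haq hb]
    tauto
  have h6 : a + q + a ∉ L.lattice := by
    rwa [show a + q + a = 2 * a + q by ring]
  have h7 : a + q - a ∉ L.lattice := by
    rwa [show a + q - a = q by ring]
  have hXx : ℘[L] (a + q) - ℘[L] a ≠ 0 := by
    rw [sub_ne_zero, Ne, wp_eq_iff L haq ha]
    tauto
  have hF := serreF_ne_zero L ha hq haq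
  have hF1 : serreF L q (a + b) ≠ 0 := serreF_ne_zero L h1 hq (by
    rwa [show a + b + q = a + q + b by ring])
  have hF2 : serreF L q (a - b) ≠ 0 := serreF_ne_zero L h1' hq (by
    rwa [show a - b + q = a + q - b by ring])
  have hG : serreF L q (2 * a) ≠ 0 := serreF_ne_zero L ha2 hq h5
  have e1 : serreF L q (a + b) * serreF L q (a - b) * (℘[L] a - ℘[L] b)
      = serreF L q a ^ 2 * (℘[L] (a + q) - ℘[L] b) := by
    rw [serreF_add_sub L ha hb hq haq h1 h1']
    field_simp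
  have e2 : serreF L q (2 * a) * ℘'[L] a = serreF L q a ^ 2 * (℘[L] (a + q) - ℘[L] a) := by
    rw [serreF_two L ha2 hq haq]
    field_simp
  obtain ⟨da, da'⟩ := D_wp L D h2 h3 ha
  obtain ⟨db, -⟩ := D_wp L D h2 h3 hb
  obtain ⟨dX, -⟩ := D_wp L D h2 h3 haq
  have omX : om L D (a + q) = om L D a := by
    rw [om_add L D h2 h3, hqD, add_zero]
  have om2 : om L D (2 * a) = 2 * om L D a := by
    rw [two_mul, om_add L D h2 h3, two_mul]
  have omp : om L D (a + b) = om L D a + om L D b := om_add L D h2 h3 a b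
  have omm : om L D (a - b) = om L D a - om L D b := by
    rw [sub_eq_add_neg, om_add L D h2 h3, om_neg, sub_eq_add_neg]
  rw [omX] at dX
  have k1 := congrArg D e1
  have k2 := congrArg D e2
  rw [D_mul, D_mul, D_mul, D_pow, map_sub, map_sub, da, db, dX] at k1
  rw [D_mul, D_mul, D_pow, map_sub, da, dX, da'] at k2
  rw [om2, omp, omm]
  refine alg_core (F := serreF L q a) (dF := D (serreF L q a)) (x := ℘[L] a) (y := ℘[L] b)
    (X := ℘[L] (a + q)) (x' := ℘'[L] a) (y' := ℘'[L] b) (X' := ℘'[L] (a + q))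
    (g := 6 * ℘[L] a ^ 2 - L.g₂ / 2) (θ := zeta L (a + q) - zeta L a - zeta L q)
    hF hF1 hF2 hG hxy hXy hXx hx' e1 e2 ?_ ?_ ?_ ?_ ?_
  · push_cast at k1
    linear_combination k1
  · push_cast at k2
    linear_combination k2
  · have z1 := zeta_add L haq ha h6 h7
    have z2 := zeta_two L ha2
    rw [show 2 * a + q = a + q + a by ring, z1, z2]
    ring
  · have z1 := zeta_add L haq hb h4 h4'
    have z2 := zeta_add L ha hb h1 h1'
    rw [show a + b + q = a + q + b by ring, z1, z2]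
    ring
  · have z1 := zeta_sub L haq hb h4 h4'
    have z2 := zeta_sub L ha hb h1 h1'
    rw [show a - b + q = a + q - b by ring, z1, z2]
    ring

end Pool.Agent.K1H8.NS
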