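import Pool.Agent.K1H83.NS.Stm
import Pool.Agent.K1H8.NS.Core

/-!
# NS-DLOG: the form of the third kind is additive
-/

set_option autoImplicit false

open Filter
open scoped Topology PeriodPair

noncomputable section

namespace Pool.Agent.K1H8.NS

open H667R3 Pool.Agent.W245.EB Pool.Agent.TH813.Ell Pool.Agent.K1H83.NS

theorem t_DLOG : S_DLOG := by
  intro L D h2 h3 q hq z w hz hw hs hd
  by_cases hqL : q ∈ L.lattice
  · have h : ∀ x : ℂ, sL L q D x = 0 := by
      intro x
      unfold sL sF sT
      rw [if_pos hqL, if_pos hqL, Derivation.map_one_eq_zero]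
      simp
    rw [h, h, h, add_zero]
  · have hqD : om L D q = 0 :=
      (om_eq_zero_iff L D h2 h3 hqL).2 (hq.resolve_left hqL)
    simp only [sB, Set.mem_ofPred_eq, not_or] at hz hw hs hd
    have hsF : ∀ x : ℂ, sF L q x = serreF L q x := by
      intro x
      unfold sF
      rw [if_neg hqL]
    have hsT : ∀ x : ℂ, sT L q x = zeta L (x + q) - zeta L x - zeta L q := by
      intro x
      unfold sT
      rw [if_neg hqL]
    have hsL : ∀ x : ℂ, sL L q D x = D (serreF L q x) / serreF L q x
        - (zeta L (x + q) - zeta L x - zeta L q) * om L D x := by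
      intro x
      unfold sL
      rw [hsF, hsT]
    have hb2 : 2 * ((z - w) / 2) ∉ L.lattice := by
      rw [show 2 * ((z - w) / 2) = z - w by ring]
      exact hd.1
    have hc := core L D h2 h3 hqL hqD (a := (z + w) / 2) (b := (z - w) / 2)
      (by rw [show 2 * ((z + w) / 2) = z + w by ring]; exact hs.1)
      (two_mul_notMem_of L hb2)
      (by rw [show 2 * ((z + w) / 2 + q) = z + w + 2 * q by ring]; exact hs.2.2)
      (by rw [show (z + w) / 2 + (z - w) / 2 = z by ring]; exact hz.1)
      (by rw [show (z + w) / 2 - (z - w) / 2 = w by ring]; exact hw.1)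
      (by rw [show (z + w) / 2 + q + (z - w) / 2 = z + q by ring]; exact hz.2.1)
      (by rw [show (z + w) / 2 + q - (z - w) / 2 = w + q by ring]; exact hw.2.1)
      (by rw [show 2 * ((z + w) / 2) + q = z + w + q by ring]; exact hs.2.1)
    rw [show 2 * ((z + w) / 2) = z + w by ring, show (z + w) / 2 + (z - w) / 2 = z by ring,
      show (z + w) / 2 - (z - w) / 2 = w by ring] at hc
    rw [hsL, hsL, hsL]
    exact hc

end Pool.Agent.K1H8.NS
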